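import Pool.Agent.Helper52.SG.Goals2
import Mathlib

/-!
# Packet SG-MSUB (project SG, MP_0a002a_al)
-/

set_option autoImplicit false

namespace Pool.Agent.Helper57.SG.MSUB

open Subgroup Pool.H83Shunkov Pool.Agent.Helper29.SH Pool.Agent.Helper52.SG

theorem nor_map {G G' : Type} [Group G] [Group G'] (f : G →* G') (H : Subgroup G)
    (K : Subgroup G') (h : H.map f = K) :
    (normalizer (H : Set G)).map f ≤ normalizer (K : Set G') := by
  rw [← h]
  rintro _ ⟨g, hg, rfl⟩
  have hg' : g ∈ normalizer (H : Set G) := hg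
  rw [Subgroup.mem_normalizer_iff] at hg' ⊢
  intro y
  constructor
  · rintro ⟨x, hx, rfl⟩
    refine ⟨g * x * g⁻¹, (hg' x).1 hx, ?_⟩
    rw [map_mul, map_mul, map_inv]
  · rintro ⟨x, hx, hxy⟩
    refine ⟨g⁻¹ * x * g, (hg' _).2 ?_, ?_⟩
    · have e : g * (g⁻¹ * x * g) * g⁻¹ = x := by group
      rw [e]
      exact hx
    · rw [map_mul, map_mul, map_inv, hxy]
      group

theorem cen_map {G G' : Type} [Group G] [Group G'] (f : G →* G') (H : Subgroup G)
    (K : Subgroup G') (h : H.map f = K) :
    (centralizer (H : Set G)).map f ≤ centralizer (K : Set G') := by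
  rw [← h]
  rintro _ ⟨g, hg, rfl⟩
  have hg' : g ∈ centralizer (H : Set G) := hg
  rw [Subgroup.mem_centralizer_iff] at hg' ⊢
  rintro _ ⟨x, hx, rfl⟩
  rw [← map_mul, ← map_mul, hg' x hx]

theorem t (jp : S_JP) (zp : S_ZP) : S_MSUB := by
  intro G _ r P h L hPL hL
  have hfin := h.fin
  have hmap : (P.subgroupOf L).map L.subtype = P := map_subgroupOf_eq_of_le hPL
  have hcard : Nat.card L < Nat.card G := by
    refine lt_of_le_of_ne (Subgroup.card_le_card_group L) fun e => hL ?_
    exact Subgroup.eq_top_of_card_eq L e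
  have hinj : Function.Injective L.subtype := L.subtype_injective
  have hinj' : ∀ x ∈ P.subgroupOf L, L.subtype x = 1 → x = 1 := by
    intro x _ hx
    exact hinj (hx.trans (map_one _).symm)
  refine PN.sub.1 (h.ind L hcard (P.subgroupOf L) h.pg.comap_subtype ?_ ?_ ?_)
  · intro hd
    apply h.idx
    have e := relIndex_mul_index hPL
    rw [← e]
    exact Dvd.dvd.mul_right hd _
  · have e := (jp L r h.hr (P.subgroupOf L)).2.2.2.2.1 G L.subtype hinj'
    rw [hmap] at e
    exact PN.comap hinj (nor_map L.subtype _ _ e.symm) h.hJ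
  · have e := (zp L r h.hr (P.subgroupOf L)).2.1 G L.subtype hinj'
    rw [hmap] at e
    exact PN.comap hinj (cen_map L.subtype _ _ e.symm) h.hZ

end Pool.Agent.Helper57.SG.MSUB
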