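import Pool.Agent.Helper52.SG.Goals2
import Mathlib

/-!
# Packet SG-PNE (project SG, MP_0a002a_al)
-/

set_option autoImplicit false

namespace Pool.Agent.Helper57.SG.PNE

open Subgroup Pool.H83Shunkov Pool.Agent.Helper29.SH Pool.Agent.Helper52.SG

theorem t : S_PNE := by
  intro G _ _ r E _ hr hE h x _ y _ hx hy hxy
  have hx' : ¬ r ∣ orderOf (QuotientGroup.mk' E x) := fun hd =>
    hx (hd.trans (orderOf_map_dvd _ x))
  have hy' : ¬ r ∣ orderOf (QuotientGroup.mk' E y) := fun hd =>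
    hy (hd.trans (orderOf_map_dvd _ y))
  have h1 := h _ trivial _ trivial hx' hy'
  rw [← map_mul] at h1
  set d := orderOf (QuotientGroup.mk' E (x * y)) with hd
  have h2 : (x * y) ^ d ∈ E := by
    rw [← QuotientGroup.eq_one_iff]
    have h3 : (QuotientGroup.mk' E (x * y)) ^ d = 1 := pow_orderOf_eq_one _
    rw [← map_pow] at h3
    exact h3
  have h4 : (x * y) ^ (d * Nat.card E) = 1 := by
    rw [pow_mul]
    have h5 : (⟨(x * y) ^ d, h2⟩ : E) ^ Nat.card E = 1 := pow_card_eq_one'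
    exact congrArg Subtype.val h5
  rcases hr.dvd_mul.1 (hxy.trans (orderOf_dvd_of_pow_eq_one h4)) with h6 | h6
  · exact h1 h6
  · exact hE h6

end Pool.Agent.Helper57.SG.PNE
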